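import Pool.Agent.Helper575.Germ.Final

open scoped RealInnerProductSpace Topology ContDiff
open Metric

namespace Pool.Agent.Results.MP_92a224_gt.FiniteClass

/-- the parameter plane `ℝ²` -/
abbrev Plane := EuclideanSpace ℝ (Fin 2)

/-- Euclidean 3-space `E³` -/
abbrev Space := EuclideanSpace ℝ (Fin 3)

/-- `f` represents a `C^k` surface germ at `0`: on some open disc centred at `0` it is a
`C^k` immersion. -/
def IsSurfaceGerm (k : ℕ∞) (f : Plane → Space) : Prop :=
  ∃ r : ℝ, 0 < r ∧ ContDiffOn ℝ k f (ball 0 r) ∧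
    ∀ x ∈ ball (0 : Plane) r, Function.Injective (fderiv ℝ f x)

/-- `φ` is a `C^k` diffeomorphism between open neighbourhoods of `0` with `φ 0 = 0`. -/
def IsLocalDiffeo (k : ℕ∞) (φ : OpenPartialHomeomorph Plane Plane) : Prop :=
  (0 : Plane) ∈ φ.source ∧ φ 0 = 0 ∧ ContDiffOn ℝ k φ φ.source ∧
    ContDiffOn ℝ k φ.symm φ.target

/-- `f` and `g` have the same first fundamental form on `U`. -/
def SameMetricOn (f g : Plane → Space) (U : Set Plane) : Prop :=
  ∀ x ∈ U, ∀ v w : Plane,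
    ⟪fderiv ℝ f x v, fderiv ℝ f x w⟫ = ⟪fderiv ℝ g x v, fderiv ℝ g x w⟫

/-- the germs of `f` and `g` are isometric (in the class `C^k`) -/
def Isometric (k : ℕ∞) (f g : Plane → Space) : Prop :=
  ∃ φ : OpenPartialHomeomorph Plane Plane, IsLocalDiffeo k φ ∧ SameMetricOn (g ∘ φ) f φ.source

/-- the germs of `f` and `g` are congruent (in the class `C^k`) -/
def Congruent (k : ℕ∞) (f g : Plane → Space) : Prop :=
  ∃ φ : OpenPartialHomeomorph Plane Plane, IsLocalDiffeo k φ ∧
    ∃ A : Space ≃ᵢ Space, ∀ x ∈ φ.source, g (φ x) = A (f x)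

/-- the germ of `f` is locally uniquely determined by its metric in the class `C^k` -/
def LocallyUniquelyDetermined (k : ℕ∞) (f : Plane → Space) : Prop :=
  ∀ g : Plane → Space, IsSurfaceGerm k g → Isometric k f g → Congruent k f g

/-- For every finite `k ≥ 2` there is a `C^k` surface germ in `E³` that is locally uniquely
determined by its metric in the class `C^k`. -/
theorem result : ∀ k : ℕ, 2 ≤ k →
    ∃ f : Plane → Space, IsSurfaceGerm k f ∧ LocallyUniquelyDetermined k f := by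
  intro k hk
  obtain ⟨n, rfl⟩ : ∃ n, k = n + 2 := ⟨k - 2, by omega⟩
  obtain ⟨u, hu, hcore⟩ := H575Germ.main_core n
  have hkk : (((n + 2 : ℕ) : ℕ∞) : WithTop ℕ∞) = ((n + 2 : ℕ) : WithTop ℕ∞) := rfl
  have hf : ContDiff ℝ (n + 2 : ℕ) (H575Germ.graph u) := H575Germ.contDiff_graph (n + 2) u hu
  have hu1 : ContDiff ℝ 1 u := hu.of_le (by exact_mod_cast (by omega : 1 ≤ n + 2))
  refine ⟨H575Germ.graph u, ⟨1, one_pos, ?_, ?_⟩, ?_⟩
  · rw [hkk]; exact hf.contDiffOn
  · intro x _
    obtain ⟨h0, h1⟩ := H575Germ.pd_graph u hu1 x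
    rw [injective_iff_map_eq_zero]
    intro v hv
    have hv' : v = v 0 • EuclideanSpace.single (0 : Fin 2) (1 : ℝ) +
        v 1 • EuclideanSpace.single (1 : Fin 2) (1 : ℝ) := by
      ext i
      fin_cases i <;> simp
    rw [hv', map_add, map_smul, map_smul] at hv
    have e0 : fderiv ℝ (H575Germ.graph u) x (EuclideanSpace.single (0 : Fin 2) (1 : ℝ)) =
      !₂[1, 0, H575Germ.pd 0 u x] := h0
    have e1 : fderiv ℝ (H575Germ.graph u) x (EuclideanSpace.single (1 : Fin 2) (1 : ℝ)) =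
      !₂[0, 1, H575Germ.pd 1 u x] := h1
    rw [e0, e1] at hv
    have a0 := congrArg (fun v : Space => v 0) hv
    have a1 := congrArg (fun v : Space => v 1) hv
    simp at a0 a1
    rw [hv', a0, a1]
    simp
  · rintro g ⟨rg, hrg, hg, -⟩ ⟨φ, ⟨h0, hφ0, hφ, hφs⟩, hmet⟩
    rw [hkk] at hg hφ hφs
    -- a ball contained in the source and mapped to the disc of `g`
    have hopen : IsOpen (φ.source ∩ φ ⁻¹' ball (0 : Plane) rg) :=
      φ.isOpen_inter_preimage isOpen_ball
    have hmem : (0 : Plane) ∈ φ.source ∩ φ ⁻¹' ball (0 : Plane) rg :=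
      ⟨h0, by rw [Set.mem_preimage, hφ0]; exact mem_ball_self hrg⟩
    obtain ⟨r1, hr1, hsub⟩ := Metric.isOpen_iff.1 hopen 0 hmem
    have hgφ : ContDiffOn ℝ (n + 2 : ℕ) (g ∘ φ) (ball (0 : Plane) r1) :=
      hg.comp (hφ.mono fun x hx => (hsub hx).1) fun x hx => (hsub hx).2
    obtain ⟨G, r2, hr2, hr21, hG, hGeq⟩ := H575Germ.extend_global (n + 2) (g ∘ φ) r1 hr1 hgφ
    have hGloc : ∀ x ∈ ball (0 : Plane) r2, G =ᶠ[𝓝 x] g ∘ φ := fun x hx =>
      Filter.eventuallyEq_of_mem (isOpen_ball.mem_nhds hx) hGeq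
    obtain ⟨A, hA⟩ := hcore G hG r2 hr2 (by
      intro x hx i j
      have hx' : x ∈ φ.source := (hsub (ball_subset_ball hr21 hx)).1
      have := hmet x hx' (EuclideanSpace.single i 1) (EuclideanSpace.single j 1)
      unfold H575Germ.pd
      rw [(hGloc x hx).fderiv_eq]
      exact this.symm)
    refine ⟨φ.restrOpen (ball (0 : Plane) r2) isOpen_ball, ⟨?_, hφ0, ?_, ?_⟩, A, ?_⟩
    · rw [φ.restrOpen_source]
      exact ⟨h0, mem_ball_self hr2⟩
    · rw [hkk, φ.restrOpen_source]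
      exact hφ.mono Set.inter_subset_left
    · rw [hkk]
      refine hφs.mono ?_
      intro y hy
      exact hy.1
    · intro x hx
      rw [φ.restrOpen_source] at hx
      have h1 := hA x hx.2
      rw [hGeq x hx.2] at h1
      exact h1

end Pool.Agent.Results.MP_92a224_gt.FiniteClass
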